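import Pool.Agent.Lib.MP_af714c_lc.Final

/-!
# MP_af714c_lc: the cardinals `λ` with `λ² → (λ², 3)²`, under GCH and Suslin trees

Assume GCH. Let `c` be an infinite cardinal such that, if the cofinality of `c` is an inaccessible
cardinal, then it is weakly compact or carries a Suslin tree (this is automatic in the constructible
universe). Then `c² → (c², 3)²` holds if and only if the cofinality of `c` is `ℵ₀` or weakly compact.
-/

set_option autoImplicit false

namespace Pool.Agent.Results.MP_af714c_lc.Classification

universe u

open Cardinal Ordinal Pool.Agent.Lib.MP_af714c_lc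

theorem result (hGCH : GCH.{u}) (c : Cardinal.{u}) (hc : ℵ₀ ≤ c)
    (h : c.ord.cof.IsInaccessible → WeaklyCompact c.ord.cof ∨ HasSuslinTree c.ord.cof) :
    Arrow (c.ord * c.ord) (c.ord * c.ord) 3 ↔ c.ord.cof = ℵ₀ ∨ WeaklyCompact c.ord.cof :=
  classification hGCH c hc h

end Pool.Agent.Results.MP_af714c_lc.Classification
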