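import Pool.Agent.Lib.MP_af714c_lc.Final

/-!
# MP_af714c_lc: strong limit cardinals of countable or weakly compact cofinality (ZFC)
-/

set_option autoImplicit false

namespace Pool.Agent.Results.MP_af714c_lc.StrongLimitPositive

universe u

open Cardinal Ordinal Pool.Agent.Lib.MP_af714c_lc

theorem result (c : Cardinal.{u}) (hc : c.IsStrongLimit)
    (h : c.ord.cof = ℵ₀ ∨ WeaklyCompact c.ord.cof) :
    Arrow (c.ord * c.ord) (c.ord * c.ord) 3 :=
  arrow_of_strongLimit hc h

end Pool.Agent.Results.MP_af714c_lc.StrongLimitPositive
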