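import Pool.Agent.Lib.MP_af714c_lc.Final

/-!
# MP_af714c_lc: reduction to the cofinality (ZFC)

For every strong limit cardinal `c`, the relation `c² → (c², 3)²` is equivalent to the same relation
for the cofinality of `c`.
-/

set_option autoImplicit false

namespace Pool.Agent.Results.MP_af714c_lc.StrongLimitReduction

universe u

open Cardinal Ordinal Pool.Agent.Lib.MP_af714c_lc

theorem result (c : Cardinal.{u}) (hc : c.IsStrongLimit) :
    Arrow (c.ord * c.ord) (c.ord * c.ord) 3 ↔
      Arrow (c.ord.cof.ord * c.ord.cof.ord) (c.ord.cof.ord * c.ord.cof.ord) 3 :=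
  arrow_iff_cof hc

end Pool.Agent.Results.MP_af714c_lc.StrongLimitReduction
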