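import Pool.Agent.Lib.MP_af714c_lc.Final

/-!
# MP_af714c_lc: a Suslin tree on the cofinality refutes the relation (ZFC)
-/

set_option autoImplicit false

namespace Pool.Agent.Results.MP_af714c_lc.SuslinNegative

universe u

open Cardinal Ordinal Pool.Agent.Lib.MP_af714c_lc

theorem result (c : Cardinal.{u}) (hc : ℵ₀ ≤ c) (h : HasSuslinTree c.ord.cof) :
    ¬ Arrow (c.ord * c.ord) (c.ord * c.ord) 3 :=
  not_arrow_of_suslin hc h

end Pool.Agent.Results.MP_af714c_lc.SuslinNegative
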